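import Pool.Agent.PQP.StmtsB

/-!
# PQP, row DBO: existence under an antipodal condition
-/

set_option autoImplicit false

open scoped InnerProductSpace Topology ContDiff Manifold
open MeasureTheory Filter Set

noncomputable section

namespace Pool.Agent.PQP.H15

open Pool.Agent.Helper42_Paneitz Pool.Agent.Helper82_Vir Pool.Agent.FLX Pool.Agent.PQP

theorem nrm_coe {z : E5} (h : z ≠ 0) : (nrm z : E5) = ‖z‖⁻¹ • z := by
  unfold nrm
  rw [dif_neg h]

/-- the key: the model vectors at antipodal points are not opposite multiples -/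
theorem mw_ne {P : Submodule ℝ E5} {ψ : S4 → ℝ} (hψ : Sm ψ)
    (hcr : ∀ p : S4, (p : E5) ∈ P → Crit ψ p → sphLaplacian ψ p ≠ 0)
    (hopp : ∀ (p p' : S4) (l : ℝ), (p : E5) ∈ P → (p' : E5) = -(p : E5) → 0 < l → l ≤ 1 →
      ¬ (gd ψ p = l • gd ψ p' ∧ sphLaplacian ψ p = -(l * sphLaplacian ψ p')))
    {w w' : S4} (hw : (w : E5) ∈ P) (hw' : (w' : E5) = -(w : E5)) {l : ℝ} (h0 : 0 ≤ l)
    (h1 : l ≤ 1) (heq : mw ψ w = l • mw ψ w') : False := by
  have ho : ⟪(w : E5), gd ψ w⟫_ℝ = 0 := by rw [inner_gd, dd_self hψ]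
  have ho' : ⟪(w : E5), gd ψ w'⟫_ℝ = 0 := by
    have h := dd_self hψ w'
    rw [← inner_gd, hw', inner_neg_left, neg_eq_zero] at h
    exact h
  have hs : ⟪(w : E5), (w : E5)⟫_ℝ = 1 := by
    rw [real_inner_self_eq_norm_sq, S4_norm w]; norm_num
  unfold mw at heq
  rw [hw'] at heq
  have hin := congrArg (fun v => ⟪(w : E5), v⟫_ℝ) heq
  simp only [inner_add_right, real_inner_smul_right, inner_neg_right, ho, ho', hs] at hin
  have hlap : sphLaplacian ψ w = -(l * sphLaplacian ψ w') := by linarith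
  have hgd : gd ψ w = l • gd ψ w' := by
    have e1 : l • (-(sphLaplacian ψ w') • -(w : E5) + gd ψ w') =
        -(sphLaplacian ψ w) • (w : E5) + l • gd ψ w' := by
      rw [hlap]
      module
    rw [e1] at heq
    exact add_left_cancel heq
  rcases h0.eq_or_lt with h | h
  · rw [← h, zero_smul] at hgd
    rw [← h, zero_mul, neg_zero] at hlap
    refine hcr w hw ?_ hlap
    intro v
    rw [← inner_gd, hgd, inner_zero_right]
  · exact hopp w w' l hw hw' h h1 ⟨hgd, hlap⟩

/-- the same for the model map -/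
theorem mdl_ne {P : Submodule ℝ E5} {ψ : S4 → ℝ} (hψ : Sm ψ)
    (hcr : ∀ p : S4, (p : E5) ∈ P → Crit ψ p → sphLaplacian ψ p ≠ 0)
    (hopp : ∀ (p p' : S4) (l : ℝ), (p : E5) ∈ P → (p' : E5) = -(p : E5) → 0 < l → l ≤ 1 →
      ¬ (gd ψ p = l • gd ψ p' ∧ sphLaplacian ψ p = -(l * sphLaplacian ψ p')))
    (hm : ∀ z : P, (mdl P ψ z : E5) = ‖z‖ • mw ψ (nrm (z : E5)))
    {z : P} (hz : z ≠ 0) {l : ℝ} (h0 : 0 ≤ l) (h1 : l ≤ 1)
    (heq : mdl P ψ z = l • mdl P ψ (-z)) : False := by
  have hz' : (z : E5) ≠ 0 := fun h => hz (Subtype.ext h)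
  have hn : ‖z‖ ≠ 0 := norm_ne_zero_iff.2 hz
  have h2 := congrArg (fun v : P => (v : E5)) heq
  simp only [Submodule.coe_smul] at h2
  rw [hm, hm, norm_neg, smul_comm] at h2
  have h3 := smul_right_injective E5 hn h2
  have hnz : (nrm (z : E5) : E5) = ‖(z : E5)‖⁻¹ • (z : E5) := nrm_coe hz'
  refine mw_ne hψ hcr hopp (w := nrm (z : E5)) (w' := nrm ((-z : P) : E5)) ?_ ?_ h0 h1 h3
  · rw [hnz]
    exact P.smul_mem _ z.2
  · have hz2 : ((-z : P) : E5) ≠ 0 := by
      rw [Submodule.coe_neg]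
      exact neg_ne_zero.2 hz'
    rw [nrm_coe hz2, hnz, Submodule.coe_neg, norm_neg, smul_neg]

theorem dbo (zan : ZanStmt) (mdc : MdcStmt) (hmt : HmtStmt) (brs : BrsStmt) : DboStmt := by
  intro P ψ hψ hinv hP hcr hopp
  obtain ⟨hc, hm⟩ := mdc P ψ hψ hinv
  refine zan P ψ hψ hinv hP hcr ?_
  intro hine
  have key := @mdl_ne P ψ hψ hcr hopp hm
  have hnt : Nontrivial P := (Submodule.nontrivial_iff_ne_bot).2 hP
  refine brs P (EE P) (fun z => mdl P ψ z - mdl P ψ (-z)) (hc.sub (hc.comp continuous_neg))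
    (fun z => by rw [neg_neg]; abel) ?_ ?_
  · intro z hz
    by_contra hne
    refine key hne zero_le_one le_rfl ?_
    rw [one_smul]
    exact sub_eq_zero.1 hz
  · have h := hmt P (EE P) (fun p => mdl P ψ p.2.1 - (1 - p.1) • mdl P ψ (-p.2.1)) (fun _ => 0)
      ?_ ?_ ?_ ?_
    · have e : (fun z : P × EE P => mdl P ψ z.1 - mdl P ψ (-z.1)) =
          fun z : P × EE P => mdl P ψ z.1 - (1 - (0 : ℝ)) • mdl P ψ (-z.1) := by
        funext z
        rw [sub_zero, one_smul]
      rw [e]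
      exact h
    · apply Continuous.continuousOn
      have c1 : Continuous fun p : ℝ × (P × EE P) => mdl P ψ p.2.1 :=
        hc.comp (continuous_fst.comp continuous_snd)
      have c2 : Continuous fun p : ℝ × (P × EE P) => mdl P ψ (-p.2.1) :=
        hc.comp (continuous_neg.comp (continuous_fst.comp continuous_snd))
      exact c1.sub ((continuous_const.sub continuous_fst).smul c2)
    · exact ⟨continuousOn_const, {0}, isCompact_singleton, fun _ _ => rfl⟩
    · rintro s hs z hz ⟨h1, h2⟩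
      have hz2 : z.2 = 0 := h2
      have hz1 : ‖z.1‖ = 1 := by
        rcases hz.2.2 with h | h
        · exact h
        · exact absurd (h.symm.trans (norm_eq_zero.2 hz2)) one_ne_zero
      have hne : z.1 ≠ 0 := by
        intro h
        rw [h, norm_zero] at hz1
        exact absurd hz1 (by norm_num)
      exact key hne (by linarith [hs.2]) (by linarith [hs.1]) (sub_eq_zero.1 h1)
    · have e : (fun z : P × EE P => mdl P ψ z.1 - (1 - (1 : ℝ)) • mdl P ψ (-z.1)) =
          fun z : P × EE P => mdl P ψ z.1 := by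
        funext z
        rw [sub_self, zero_smul, sub_zero]
      show Ine (fun z : P × EE P => mdl P ψ z.1 - (1 - (1 : ℝ)) • mdl P ψ (-z.1)) fun _ => 0
      rw [e]
      exact hine

end Pool.Agent.PQP.H15
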