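import Pool.Agent.PQP.StmtsC

/-!
# PQP, row TAU: the Moebius reflections
-/

set_option autoImplicit false

open scoped InnerProductSpace Topology ContDiff Manifold
open MeasureTheory Filter Set

noncomputable section

namespace Pool.Agent.PQP.H15

open Pool.Agent.Helper42_Paneitz Pool.Agent.Helper82_Vir Pool.Agent.FLX Pool.Agent.PQP

section

variable (e : S4) (s : ℝ)

theorem self1 (x : S4) : ⟪(x : E5), (x : E5)⟫_ℝ = 1 := by
  rw [real_inner_self_eq_norm_sq, S4_norm x]; norm_num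

theorem c_le (x : S4) : |⟪(e : E5), (x : E5)⟫_ℝ| ≤ 1 := by
  have h := abs_real_inner_le_norm (e : E5) (x : E5)
  rwa [S4_norm e, S4_norm x, mul_one] at h

variable {s}

theorem N_pos (h1 : -1 < s) (h2 : s < 1) (x : S4) :
    0 < 1 + s ^ 2 - 2 * s * ⟪(e : E5), (x : E5)⟫_ℝ := by
  have h := abs_le.1 (c_le e x)
  set c : ℝ := ⟪(e : E5), (x : E5)⟫_ℝ
  have ha : 0 < (1 - s) ^ 2 := by
    have : 0 < 1 - s := by linarith
    positivity
  have hb : 0 < (1 + s) ^ 2 := by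
    have : 0 < 1 + s := by linarith
    positivity
  have hid : 1 + s ^ 2 - 2 * s * c = (1 + c) / 2 * (1 - s) ^ 2 + (1 - c) / 2 * (1 + s) ^ 2 := by
    ring
  rw [hid]
  rcases le_total 0 c with hc | hc
  · have h3 : 0 < (1 + c) / 2 * (1 - s) ^ 2 := mul_pos (by linarith) ha
    have h4 : 0 ≤ (1 - c) / 2 * (1 + s) ^ 2 := mul_nonneg (by linarith [h.2]) hb.le
    linarith
  · have h3 : 0 ≤ (1 + c) / 2 * (1 - s) ^ 2 := mul_nonneg (by linarith [h.1]) ha.le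
    have h4 : 0 < (1 - c) / 2 * (1 + s) ^ 2 := mul_pos (by linarith) hb
    linarith

theorem s_pos (h1 : -1 < s) (h2 : s < 1) : 0 < 1 - s ^ 2 := by nlinarith

theorem inner_vec (x y : S4) :
    ⟪(1 - s ^ 2) • (x : E5) - (2 * (⟪(e : E5), (x : E5)⟫_ℝ - s)) • (e : E5),
      (1 - s ^ 2) • (y : E5) - (2 * (⟪(e : E5), (y : E5)⟫_ℝ - s)) • (e : E5)⟫_ℝ =
    (1 - s ^ 2) ^ 2 * ⟪(x : E5), (y : E5)⟫_ℝ
      - 2 * (1 - s ^ 2) * (⟪(e : E5), (y : E5)⟫_ℝ - s) * ⟪(e : E5), (x : E5)⟫_ℝ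
      - 2 * (1 - s ^ 2) * (⟪(e : E5), (x : E5)⟫_ℝ - s) * ⟪(e : E5), (y : E5)⟫_ℝ
      + 4 * (⟪(e : E5), (x : E5)⟫_ℝ - s) * (⟪(e : E5), (y : E5)⟫_ℝ - s) := by
  simp only [inner_sub_left, inner_sub_right, real_inner_smul_left, real_inner_smul_right,
    self1, real_inner_comm (e : E5) (x : E5)]
  ring

theorem inner_tauE (h1 : -1 < s) (h2 : s < 1) (x y : S4) :
    1 - ⟪tauE e s x, tauE e s y⟫_ℝ =
      (1 - ⟪(x : E5), (y : E5)⟫_ℝ) * capJ e s x * capJ e s y := by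
  have hx := N_pos e h1 h2 x
  have hy := N_pos e h1 h2 y
  unfold tauE capJ
  rw [real_inner_smul_left, real_inner_smul_right, inner_vec]
  set a : ℝ := ⟪(e : E5), (x : E5)⟫_ℝ
  set b : ℝ := ⟪(e : E5), (y : E5)⟫_ℝ
  have hx' := hx.ne'
  have hy' := hy.ne'
  set Nx : ℝ := 1 + s ^ 2 - 2 * s * a with hNx
  set Ny : ℝ := 1 + s ^ 2 - 2 * s * b with hNy
  field_simp
  rw [hNx, hNy]
  ring

theorem norm_tauE (h1 : -1 < s) (h2 : s < 1) (x : S4) : ‖tauE e s x‖ = 1 := by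
  have h := inner_tauE e h1 h2 x x
  rw [self1] at h
  have h3 : ⟪tauE e s x, tauE e s x⟫_ℝ = 1 := by linarith
  rw [real_inner_self_eq_norm_sq] at h3
  have h4 := norm_nonneg (tauE e s x)
  nlinarith

theorem tau_coe (h1 : -1 < s) (h2 : s < 1) (x : S4) : (tau e s x : E5) = tauE e s x := by
  unfold tau
  rw [dif_pos (norm_tauE e h1 h2 x)]

theorem inner_e_tauE (h1 : -1 < s) (h2 : s < 1) (x : S4) :
    ⟪(e : E5), tauE e s x⟫_ℝ =
      (2 * s - (1 + s ^ 2) * ⟪(e : E5), (x : E5)⟫_ℝ) /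
        (1 + s ^ 2 - 2 * s * ⟪(e : E5), (x : E5)⟫_ℝ) := by
  have hx := (N_pos e h1 h2 x).ne'
  unfold tauE
  rw [real_inner_smul_right, inner_sub_right, real_inner_smul_right, real_inner_smul_right, self1]
  field_simp
  ring

theorem tau_tau (h1 : -1 < s) (h2 : s < 1) (x : S4) : tau e s (tau e s x) = x := by
  apply Subtype.ext
  rw [tau_coe e h1 h2]
  have hc : ⟪(e : E5), (tau e s x : E5)⟫_ℝ = _ :=
    (congrArg (fun v => ⟪(e : E5), v⟫_ℝ) (tau_coe e h1 h2 x)).trans (inner_e_tauE e h1 h2 x)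
  have hx := (N_pos e h1 h2 x).ne'
  have hs := (s_pos h1 h2).ne'
  unfold tauE
  rw [hc, tau_coe e h1 h2]
  unfold tauE
  set c : ℝ := ⟪(e : E5), (x : E5)⟫_ℝ
  set N : ℝ := 1 + s ^ 2 - 2 * s * c with hN
  have e1 : 1 + s ^ 2 - 2 * s * ((2 * s - (1 + s ^ 2) * c) / N) = (1 - s ^ 2) ^ 2 / N := by
    field_simp
    rw [hN]; ring
  have e2 : 2 * ((2 * s - (1 + s ^ 2) * c) / N - s) = -(2 * (1 - s ^ 2) * (c - s) / N) := by
    field_simp
    rw [hN]; ring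
  rw [e1, e2]
  have e3 : ((1 - s ^ 2) ^ 2 / N)⁻¹ * ((1 - s ^ 2) * (N⁻¹ * (1 - s ^ 2))) = 1 := by
    field_simp
  have e4 : -(((1 - s ^ 2) ^ 2 / N)⁻¹ * ((1 - s ^ 2) * (N⁻¹ * (2 * (c - s))))) -
      ((1 - s ^ 2) ^ 2 / N)⁻¹ * -(2 * (1 - s ^ 2) * (c - s) / N) = 0 := by
    field_simp
    ring
  have e5 : ((1 - s ^ 2) ^ 2 / N)⁻¹ • ((1 - s ^ 2) • N⁻¹ • ((1 - s ^ 2) • (x : E5) -
      (2 * (c - s)) • (e : E5)) - (-(2 * (1 - s ^ 2) * (c - s) / N)) • (e : E5)) =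
      (((1 - s ^ 2) ^ 2 / N)⁻¹ * ((1 - s ^ 2) * (N⁻¹ * (1 - s ^ 2)))) • (x : E5) +
      (-(((1 - s ^ 2) ^ 2 / N)⁻¹ * ((1 - s ^ 2) * (N⁻¹ * (2 * (c - s))))) -
      ((1 - s ^ 2) ^ 2 / N)⁻¹ * -(2 * (1 - s ^ 2) * (c - s) / N)) • (e : E5) := by
    module
  rw [e5, e3, e4, one_smul, zero_smul, add_zero]

theorem capJ_tau (h1 : -1 < s) (h2 : s < 1) (x : S4) :
    capJ e s (tau e s x) * capJ e s x = 1 := by
  have hc : ⟪(e : E5), (tau e s x : E5)⟫_ℝ = _ :=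
    (congrArg (fun v => ⟪(e : E5), v⟫_ℝ) (tau_coe e h1 h2 x)).trans (inner_e_tauE e h1 h2 x)
  have hx := (N_pos e h1 h2 x).ne'
  have hs := (s_pos h1 h2).ne'
  unfold capJ
  rw [hc]
  set c : ℝ := ⟪(e : E5), (x : E5)⟫_ℝ
  set N : ℝ := 1 + s ^ 2 - 2 * s * c with hN
  have e1 : 1 + s ^ 2 - 2 * s * ((2 * s - (1 + s ^ 2) * c) / N) = (1 - s ^ 2) ^ 2 / N := by
    field_simp
    rw [hN]; ring
  rw [e1]
  field_simp

theorem inner_x_tau (h1 : -1 < s) (h2 : s < 1) (x y : S4) :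
    1 - ⟪(x : E5), (tau e s y : E5)⟫_ℝ = capJ e s y *
      ((1 - ⟪(x : E5), (y : E5)⟫_ℝ) + 2 * (⟪(e : E5), (x : E5)⟫_ℝ - s) *
        (⟪(e : E5), (y : E5)⟫_ℝ - s) / (1 - s ^ 2)) := by
  have hy := (N_pos e h1 h2 y).ne'
  have hs := (s_pos h1 h2).ne'
  rw [tau_coe e h1 h2]
  unfold tauE capJ
  rw [real_inner_smul_right, inner_sub_right, real_inner_smul_right, real_inner_smul_right,
    real_inner_comm (e : E5) (x : E5)]
  set a : ℝ := ⟪(e : E5), (x : E5)⟫_ℝ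
  set b : ℝ := ⟪(e : E5), (y : E5)⟫_ℝ
  set Ny : ℝ := 1 + s ^ 2 - 2 * s * b with hNy
  field_simp
  rw [hNy]
  ring

/-- the linear reflection `x ↦ x - 2 <e, x> e` -/
def refl (e : S4) : E5 ≃ₗᵢ[ℝ] E5 :=
  ((Submodule.span ℝ {(e : E5)}).reflection).trans (LinearIsometryEquiv.neg ℝ)

theorem refl_apply (e : S4) (x : E5) : refl e x = x - (2 * ⟪(e : E5), x⟫_ℝ) • (e : E5) := by
  unfold refl
  rw [LinearIsometryEquiv.trans_apply, Submodule.reflection_singleton_apply]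
  simp only [LinearIsometryEquiv.coe_neg, S4_norm e]
  rw [neg_sub]
  congr 1
  simp [mul_smul, two_smul]

theorem act_embedding (R : E5 ≃ₗᵢ[ℝ] E5) : MeasurableEmbedding (act R) := by
  have hinj : Function.Injective (act R) := by
    intro x y h
    apply Subtype.ext
    have h' := congrArg (fun z : S4 => (z : E5)) h
    exact R.injective h'
  exact ((continuous_act R).isClosedEmbedding hinj).measurableEmbedding

/-- the parameter of the Moebius map -/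
def bb (e : S4) (s : ℝ) : E5 := (2 * s / (1 + s ^ 2)) • (e : E5)

theorem bb_sq (e : S4) (s : ℝ) :
    1 - ‖bb e s‖ ^ 2 = ((1 - s ^ 2) / (1 + s ^ 2)) ^ 2 := by
  unfold bb
  have h : (1 + s ^ 2) ≠ 0 := by positivity
  rw [norm_smul, S4_norm e, mul_one, Real.norm_eq_abs, sq_abs]
  field_simp
  ring

theorem bb_lt (h1 : -1 < s) (h2 : s < 1) : ‖bb e s‖ < 1 := by
  have h := bb_sq e s
  have h3 : 0 < ((1 - s ^ 2) / (1 + s ^ 2)) ^ 2 := by
    have := s_pos h1 h2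
    positivity
  have h4 := norm_nonneg (bb e s)
  nlinarith

theorem sq_bb (h1 : -1 < s) (h2 : s < 1) : FLX.sq (bb e s) = (1 - s ^ 2) / (1 + s ^ 2) := by
  unfold FLX.sq
  rw [bb_sq]
  apply Real.sqrt_sq
  have := s_pos h1 h2
  positivity

theorem inner_bb (x : S4) :
    ⟪bb e s, (act (refl e) x : E5)⟫_ℝ = -(2 * s * ⟪(e : E5), (x : E5)⟫_ℝ / (1 + s ^ 2)) := by
  rw [act_coe, refl_apply]
  unfold bb
  rw [real_inner_smul_left, inner_sub_right, real_inner_smul_right, self1]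
  have h : (1 + s ^ 2) ≠ 0 := by positivity
  field_simp
  ring

theorem mobE_refl (h1 : -1 < s) (h2 : s < 1) (x : S4) :
    mobE (bb e s) (act (refl e) x : E5) = tauE e s x := by
  unfold mobE tauE
  rw [inner_bb, sq_bb e h1 h2, act_coe, refl_apply]
  unfold bb
  set c : ℝ := ⟪(e : E5), (x : E5)⟫_ℝ
  have hN := (N_pos e h1 h2 x).ne'
  have h : (1 + s ^ 2) ≠ 0 := by positivity
  have e1 : 1 + -(2 * s * c / (1 + s ^ 2)) = (1 + s ^ 2 - 2 * s * c) / (1 + s ^ 2) := by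
    field_simp
    ring
  have e2 : 1 + (1 - s ^ 2) / (1 + s ^ 2) = 2 / (1 + s ^ 2) := by
    field_simp
    ring
  have e3 : 1 + -(2 * s * c / (1 + s ^ 2)) / (2 / (1 + s ^ 2)) = 1 - s * c := by
    field_simp
    ring
  rw [e2, e3, e1]
  rw [smul_add, smul_sub, smul_sub, smul_sub, smul_smul, smul_smul, smul_smul, smul_smul,
    smul_smul, smul_smul, smul_smul]
  have e4 : ((1 + s ^ 2 - 2 * s * c) / (1 + s ^ 2))⁻¹ * ((1 - s ^ 2) / (1 + s ^ 2)) =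
      (1 + s ^ 2 - 2 * s * c)⁻¹ * (1 - s ^ 2) := by
    field_simp
  rw [e4, sub_add]
  congr 1
  rw [← sub_smul]
  congr 1
  field_simp
  ring

theorem mob_refl (h1 : -1 < s) (h2 : s < 1) (hmoa : MoaStmt) (x : S4) :
    mob (bb e s) (act (refl e) x) = tau e s x := by
  apply Subtype.ext
  rw [(hmoa _ (bb_lt e h1 h2)).2.1, mobE_refl e h1 h2, tau_coe e h1 h2]

theorem Jac_refl (h1 : -1 < s) (h2 : s < 1) (x : S4) :
    Jac (bb e s) (act (refl e) x) = capJ e s x ^ 4 := by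
  unfold Jac capJ
  rw [inner_bb, bb_sq]
  set c : ℝ := ⟪(e : E5), (x : E5)⟫_ℝ
  have hN := (N_pos e h1 h2 x).ne'
  have h : (1 + s ^ 2) ≠ 0 := by positivity
  have e1 : 1 + -(2 * s * c / (1 + s ^ 2)) = (1 + s ^ 2 - 2 * s * c) / (1 + s ^ 2) := by
    field_simp
    ring
  rw [e1]
  field_simp

theorem change (h1 : -1 < s) (h2 : s < 1) (hmoa : MoaStmt) (hmom : MomStmt) (g : S4 → ℝ) :
    ∫ y, g (tau e s y) * capJ e s y ^ 4 ∂sig = ∫ y, g y ∂sig := by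
  have h3 : ∀ y, g (tau e s y) * capJ e s y ^ 4 =
      (fun z => g (mob (bb e s) z) * Jac (bb e s) z) (act (refl e) y) := by
    intro y
    simp only
    rw [mob_refl e h1 h2 hmoa, Jac_refl e h1 h2]
  rw [integral_congr_ae (Eventually.of_forall h3)]
  exact ((measurePreserving_act (refl e)).integral_comp (act_embedding _)
    (fun z => g (mob (bb e s) z) * Jac (bb e s) z)).trans (hmom _ (bb_lt e h1 h2) g)

theorem neg_tau (h1 : -1 < s) (h2 : s < 1) (x : S4) :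
    tau (-e) (-s) x = tau e s x ∧ capJ (-e) (-s) x = capJ e s x := by
  have hc : ⟪((-e : S4) : E5), (x : E5)⟫_ℝ = -⟪(e : E5), (x : E5)⟫_ℝ := by
    rw [coe_neg_sphere, inner_neg_left]
  constructor
  · apply Subtype.ext
    rw [tau_coe e h1 h2, tau_coe (-e) (by linarith) (by linarith)]
    unfold tauE
    rw [hc, coe_neg_sphere]
    congr 1
    · congr 1; ring
    · congr 1
      · congr 1; ring
      · rw [smul_neg, ← neg_smul]
        congr 1; ring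
  · unfold capJ
    rw [hc]
    congr 1 <;> ring

theorem cont_tau : ContinuousOn (fun z : ℝ × S4 => tau e z.1 z.2)
    (Ioo (-1 : ℝ) 1 ×ˢ (univ : Set S4)) := by
  rw [Topology.IsInducing.subtypeVal.continuousOn_iff]
  have h : ContinuousOn (fun z : ℝ × S4 => tauE e z.1 z.2)
      (Ioo (-1 : ℝ) 1 ×ˢ (univ : Set S4)) := by
    unfold tauE
    have hc : Continuous fun z : ℝ × S4 => ⟪(e : E5), (z.2 : E5)⟫_ℝ :=
      continuous_const.inner (continuous_subtype_val.comp continuous_snd)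
    have hv : Continuous fun z : ℝ × S4 => (z.2 : E5) :=
      continuous_subtype_val.comp continuous_snd
    have h1 : Continuous fun z : ℝ × S4 => z.1 := continuous_fst
    have h5 : Continuous fun z : ℝ × S4 => 1 + z.1 ^ 2 - 2 * z.1 * ⟪(e : E5), (z.2 : E5)⟫_ℝ :=
      (continuous_const.add (h1.pow 2)).sub ((continuous_const.mul h1).mul hc)
    have h6 : ContinuousOn (fun z : ℝ × S4 =>
        (1 + z.1 ^ 2 - 2 * z.1 * ⟪(e : E5), (z.2 : E5)⟫_ℝ)⁻¹)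
        (Ioo (-1 : ℝ) 1 ×ˢ (univ : Set S4)) :=
      h5.continuousOn.inv₀ fun z hz => (N_pos e hz.1.1 hz.1.2 z.2).ne'
    have h7 : Continuous fun z : ℝ × S4 => (1 - z.1 ^ 2) • (z.2 : E5) :=
      (continuous_const.sub (h1.pow 2)).smul hv
    have h8 : Continuous fun z : ℝ × S4 =>
        (2 * (⟪(e : E5), (z.2 : E5)⟫_ℝ - z.1)) • (e : E5) :=
      (continuous_const.mul (hc.sub h1)).smul continuous_const
    exact h6.smul (h7.sub h8).continuousOn
  refine h.congr ?_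
  intro z hz
  exact tau_coe e hz.1.1 hz.1.2 z.2

end

theorem tau_stmt (hmoa : MoaStmt) (hmom : MomStmt) : TauStmt := by
  intro e s h1 h2
  refine ⟨fun x => ⟨N_pos e h1 h2 x, div_pos (s_pos h1 h2) (N_pos e h1 h2 x),
    tau_coe e h1 h2 x⟩, ?_, ?_, fun x => ⟨tau_tau e h1 h2 x, capJ_tau e h1 h2 x⟩,
    inner_x_tau e h1 h2, change e h1 h2 hmoa hmom, neg_tau e h1 h2, cont_tau e⟩
  · intro x
    rw [tau_coe e h1 h2]
    exact inner_e_tauE e h1 h2 x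
  · intro x y
    rw [tau_coe e h1 h2, tau_coe e h1 h2]
    exact inner_tauE e h1 h2 x y

end Pool.Agent.PQP.H15
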